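import Pool.Agent.R923.SE.Fin
import Pool.Agent.R923.SE.Unif
import Pool.Agent.R923.SE.Sph
import Pool.Agent.R923.SE.Img
import Pool.Agent.R923.SE.Hol
import Pool.Agent.R923.SE.MC
import Pool.Agent.R923.SE.ZD
import Pool.Agent.R923.SE.N
import Pool.Agent.R923.SE.Row
import Pool.Agent.R923.SE.Pos
import Pool.Agent.R923.SE.Base
import Pool.Agent.R923.SE.Ser
import Pool.Agent.R923.SE.Lag
import Pool.Agent.R923.SE.Mom
import Pool.Agent.R923.SE.PD
import Pool.Agent.R923.SE.Bar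
import Pool.Agent.R923.SE.BG
import Pool.Agent.R923.SE.Int

/-!
Fisher–Hartwig asymptotics for the spherical ensemble (MP_43990b_pr, Q1): the answer is yes.

Proof (see `Pool/Agent/R923/SE/NOTES.md`). By unitary invariance
`E |P_n(z)|^{2p} = (1 + |z|²)^{n p} Ψ(r, p)` with `r = |z|² / (1 + |z|²)` and
`Ψ(r, p) = E |det(√r B + √(1-r) A)|^{2p} |det B|^{-2p}`. The first `n` Taylor coefficients at
`r = 0` of `Ψ (1 - r)^{-n²}`-type expansions are computed exactly by interpolation in the number of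
columns; for imaginary `p` all the Taylor coefficients of `Ψ` are nonnegative with sum at most one,
so the tail is at most `r^{n+1}`; a three lines argument transfers this to `|Re p| < 1`.
-/

set_option autoImplicit false

open MeasureTheory Complex Filter

namespace Pool.Agent.Results.MP_43990b_pr.FisherHartwig

noncomputable section

/-- The standard complex Gaussian law `N_ℂ(0, 1)`, with density `e^{-|w|²} / π`. -/
def stdGaussian : Measure ℂ :=
  (volume : Measure ℂ).withDensity fun w => ENNReal.ofReal (Real.exp (-‖w‖ ^ 2) / Real.pi)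

/-- The law of an `n × n` matrix with independent standard complex Gaussian entries. -/
def ginibre (n : ℕ) : Measure (Fin n → Fin n → ℂ) :=
  Measure.pi fun _ : Fin n => Measure.pi fun _ : Fin n => stdGaussian

/-- The law of a pair `(A, B)` of independent Ginibre matrices. -/
def ginibrePair (n : ℕ) : Measure ((Fin n → Fin n → ℂ) × (Fin n → Fin n → ℂ)) :=
  (ginibre n).prod (ginibre n)

/-- `P_n(z) = det (z I - A B⁻¹)`, the characteristic polynomial of the spherical ensemble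
(`B` is almost surely invertible, see `result`). -/
def charPoly {n : ℕ} (A B : Fin n → Fin n → ℂ) (z : ℂ) : ℂ :=
  Matrix.det (z • (1 : Matrix (Fin n) (Fin n) ℂ) - Matrix.of A * (Matrix.of B)⁻¹)

/-- `|w|^γ = exp (γ log |w|)`. -/
def absPow (w γ : ℂ) : ℂ := Complex.exp (γ * ((Real.log ‖w‖ : ℝ) : ℂ))

/-- `E |P_n(z)|^γ`. -/
def moment (n : ℕ) (z γ : ℂ) : ℂ := ∫ x, absPow (charPoly x.1 x.2 z) γ ∂ginibrePair n

/-- The Barnes `G`-function, by its Weierstrass product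
`G(1 + u) = (2π)^{u/2} e^{-(u + u² (1 + γ_E))/2} ∏_{k ≥ 1} (1 + u/k)^k e^{u²/(2k) - u}`. -/
def barnesG (s : ℂ) : ℂ :=
  (2 * (Real.pi : ℂ)) ^ ((s - 1) / 2) *
    Complex.exp (-((s - 1) + (s - 1) ^ 2 * (1 + (Real.eulerMascheroniConstant : ℂ))) / 2) *
    ∏' k : ℕ, (1 + (s - 1) / ((k : ℂ) + 1)) ^ (k + 1) *
      Complex.exp ((s - 1) ^ 2 / (2 * ((k : ℂ) + 1)) - (s - 1))

/-- The main term `M_n(z, γ) = n^{γ²/4} (1 + |z|²)^{γ n/2 - γ²/4} / (G(1 - γ/2) G(1 + γ/2))`. -/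
def mainTerm (n : ℕ) (z γ : ℂ) : ℂ :=
  (n : ℂ) ^ (γ ^ 2 / 4) * ((1 + ‖z‖ ^ 2 : ℝ) : ℂ) ^ (γ * n / 2 - γ ^ 2 / 4) /
    (barnesG (1 - γ / 2) * barnesG (1 + γ / 2))

end

open Pool.Agent.R923.SE in
/-- **Fisher–Hartwig asymptotics for the spherical ensemble.** For all compact sets `K ⊆ ℂ` and
`Γ ⊆ {γ : |Re γ| < 2}`, `E |P_n(z)|^γ / M_n(z, γ) → 1` uniformly for `z ∈ K`, `γ ∈ Γ`.
Moreover `B` is almost surely invertible, `|P_n(z)|^γ` is integrable whenever `|Re γ| < 2`, and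
`barnesG` is entire, with `G(1) = 1` and `G(s+1) = Γ(s) G(s)`. -/
theorem result :
    (∀ K Γ : Set ℂ, IsCompact K → IsCompact Γ → (∀ γ ∈ Γ, |γ.re| < 2) →
      ∀ ε : ℝ, 0 < ε → ∃ N : ℕ, ∀ n : ℕ, N ≤ n → ∀ z ∈ K, ∀ γ ∈ Γ,
        ‖moment n z γ / mainTerm n z γ - 1‖ < ε) ∧
    (∀ (n : ℕ) (z γ : ℂ), |γ.re| < 2 →
      Integrable (fun x : (Fin n → Fin n → ℂ) × (Fin n → Fin n → ℂ) =>
        absPow (charPoly x.1 x.2 z) γ) (ginibrePair n)) ∧
    (∀ n : ℕ, ∀ᵐ B ∂ginibre n, (Matrix.of B).det ≠ 0) ∧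
    barnesG 1 = 1 ∧
    (∀ s : ℂ, (∀ j : ℕ, s ≠ -(j : ℂ)) → barnesG (s + 1) = Complex.Gamma s * barnesG s) ∧
    Differentiable ℂ barnesG := by
  have hDEN : S_DEN := s_DEN
  have hROT : S_ROT := s_ROT
  have hUL : S_UL := s_UL
  have hUR : S_UR := s_UR
  have hTR : S_TR := s_TR
  have hNUL : S_NUL := s_NUL hUR
  have hN : S_N := s_N hDEN hUR
  have hROW : S_ROW := s_ROW hN hNUL hDEN
  have hCOL : S_COL := s_COL hN hNUL hDEN hTR
  have hPOL : S_POL := s_POL hN hNUL hDEN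
  have hZD : S_ZD := s_ZD hUR hPOL
  have hLAG : S_LAG := s_LAG hROW hUL hPOL
  have hMC : S_MC := s_MC hCOL hPOL
  have hMOM : S_MOM := s_MOM hZD hLAG hMC hPOL hROW
  have hSER : S_SER := s_SER hN hROW hDEN hNUL hROT
  have hSYM : S_SYM := s_SYM hROT
  have hPD : S_PD := s_PD hROT
  have hIMG : S_IMG := s_IMG hSER hMOM s_POS hPD
  have hHOL : S_HOL := s_HOL hN hROT
  have hSPH : S_SPH := s_SPH hNUL hROT
  have hBAR : S_BAR := s_BAR
  have hUNIF : S_UNIF := s_UNIF hIMG hHOL hSYM hBAR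
  have hFIN : S_FIN := s_FIN hUNIF hSPH hBAR
  obtain ⟨hg1, hg2, hg3, -⟩ := s_BG
  refine ⟨?_, fun n z γ hγ => s_INT hN hNUL hROT n z γ hγ, fun n => hNUL n, hg1, hg2, hg3⟩
  intro K Γ hK hΓ hre ε hε
  have h := Metric.tendstoUniformlyOn_iff.1 (hFIN K Γ hK hΓ hre) ε hε
  obtain ⟨N, hN'⟩ := Filter.eventually_atTop.1 h
  refine ⟨N, fun n hn z hz γ hγ => ?_⟩
  have h2 := hN' n hn (z, γ) ⟨hz, hγ⟩
  rw [dist_comm, Complex.dist_eq] at h2
  exact h2

end Pool.Agent.Results.MP_43990b_pr.FisherHartwig
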